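import Mathlib
import Pool.Agent.Helper307.PP.Total
import Pool.Agent.Q28.ThreeP

/-!
For every `r ≥ 2` there is a 3P-blocking word in the free group of rank `r`.
-/

namespace Pool.Agent.Results.MP_1d2ce7_al.BlockingWord

open FreeGroup

/-- Some generator occurs in the reduced word `w`, and its inverse never occurs. -/
def PartiallyPositive {r : ℕ} (w : FreeGroup (Fin r)) : Prop :=
  ∃ a : Fin r, (a, true) ∈ w.toWord ∧ (a, false) ∉ w.toWord

/-- `w` is the image of a partially positive word under an automorphism. -/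
def ThreeP {r : ℕ} (w : FreeGroup (Fin r)) : Prop :=
  ∃ φ : FreeGroup (Fin r) ≃* FreeGroup (Fin r), ∃ v : FreeGroup (Fin r),
    PartiallyPositive v ∧ w = φ v

/-- The reduced word `u` is not a block of consecutive letters of any cyclically reduced 3P word. -/
def Blocking {r : ℕ} (u : List (Fin r × Bool)) : Prop :=
  FreeGroup.IsReduced u ∧ ∀ w : FreeGroup (Fin r),
    FreeGroup.IsCyclicallyReduced w.toWord → ThreeP w → ¬ u <:+: w.toWord

theorem join {X : Type} [Nontrivial X] (U V : List (X × Bool)) (hU : FreeGroup.IsReduced U)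
    (hV : FreeGroup.IsReduced V) : ∃ M : List (X × Bool), FreeGroup.IsReduced (U ++ M ++ V) := by
  by_cases h : ∀ x ∈ U.getLast?, ∀ y ∈ V.head?, x.1 = y.1 → x.2 = y.2
  · refine ⟨[], ?_⟩
    rw [List.append_nil, FreeGroup.IsReduced, List.isChain_append]
    exact ⟨hU, hV, h⟩
  · push Not at h
    obtain ⟨x, hx, y, hy, hxy, -⟩ := h
    obtain ⟨z, hz⟩ := exists_ne x.1
    refine ⟨[(z, true)], ?_⟩
    rw [List.append_assoc, FreeGroup.IsReduced, List.isChain_append]
    refine ⟨hU, ?_, ?_⟩
    · rw [List.singleton_append, List.isChain_cons]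
      refine ⟨?_, hV⟩
      intro y' hy' h'
      exfalso
      have : y' = y := by
        rw [Option.mem_def] at hy hy'
        rw [hy] at hy'
        exact (Option.some.inj hy').symm
      rw [this] at h'
      exact hz (h'.trans hxy.symm)
    · intro x' hx' y' hy' h'
      exfalso
      have e1 : x' = x := by
        rw [Option.mem_def] at hx hx'
        rw [hx] at hx'
        exact (Option.some.inj hx').symm
      have e2 : y' = (z, true) := by simpa using hy'.symm
      rw [e1, e2] at h'
      exact hz h'.symm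

theorem join_all {X : Type} [Nontrivial X] (Ls : List (List (X × Bool)))
    (h : ∀ L ∈ Ls, FreeGroup.IsReduced L) :
    ∃ U : List (X × Bool), FreeGroup.IsReduced U ∧ ∀ L ∈ Ls, L <:+: U := by
  induction Ls with
  | nil => exact ⟨[], IsReduced.nil, by simp⟩
  | cons A Ls ih =>
    obtain ⟨U, hU, hUL⟩ := ih fun L hL => h L (List.mem_cons_of_mem _ hL)
    obtain ⟨M, hM⟩ := join A U (h A List.mem_cons_self) hU
    refine ⟨A ++ M ++ U, hM, ?_⟩
    intro L hL
    rcases List.mem_cons.1 hL with rfl | hL
    · exact ⟨[], M ++ U, by simp⟩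
    · obtain ⟨s, t, hst⟩ := hUL L hL
      exact ⟨A ++ M ++ s, t, by rw [← hst]; simp⟩

theorem result (r : ℕ) (hr : 2 ≤ r) : ∃ u : List (Fin r × Bool), Blocking u := by
  classical
  haveI : Nontrivial (Fin r) := Fin.nontrivial_iff_two_le.2 hr
  haveI : Inhabited (Fin r) := ⟨⟨0, by omega⟩⟩
  obtain ⟨u, hu, hall⟩ := join_all
    ((Finset.univ.filter fun p : Fin r × Fin r => p.1 ≠ p.2).toList.map
        (fun p => H307PP.P1 r p.1 p.2) ++
      (Finset.univ.filter fun p : Fin r × Fin r => p.1 ≠ p.2).toList.map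
        (fun p => H307PP.P2 r p.1 p.2)) (by
      intro L hL
      rcases List.mem_append.1 hL with hL | hL
      · obtain ⟨p, hp, rfl⟩ := List.mem_map.1 hL
        rw [Finset.mem_toList, Finset.mem_filter] at hp
        exact H307PP.P1_reduced r hp.2
      · obtain ⟨p, hp, rfl⟩ := List.mem_map.1 hL
        rw [Finset.mem_toList, Finset.mem_filter] at hp
        exact H307PP.P2_reduced r hp.2)
  refine ⟨u, hu, ?_⟩
  rintro w hw ⟨φ, v, ⟨a, ha, hna⟩, hv⟩ hocc
  have e : (φ.symm.toMonoidHom : FreeGroup (Fin r) →* FreeGroup (Fin r)) (mk w.toWord) = v := by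
    rw [mk_toWord, hv]
    simp
  refine Q28.TP.no_patternA (X := Fin r) (Y := Fin r) a φ.symm.toMonoidHom
    (fun x y h => φ.symm.injective h) w.toWord hw (by rw [e]; exact ha) (by rw [e]; exact hna) ?_
  intro i j hij
  rw [Fintype.card_fin]
  constructor
  · refine (hall _ (List.mem_append_left _ (List.mem_map.2 ⟨(i, j), ?_, rfl⟩))).trans hocc
    simpa using hij
  · refine (hall _ (List.mem_append_right _ (List.mem_map.2 ⟨(i, j), ?_, rfl⟩))).trans hocc
    simpa using hij

end Pool.Agent.Results.MP_1d2ce7_al.BlockingWord
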